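import Mathlib

/-!
# Combinatorics for decision trees of zero tests, words of a code
-/

set_option autoImplicit false

namespace Pool.AD3

open Finset

section extend
variable {U K : Type} {s : ℕ}

theorem extend_extend (G : Fin s → U) (hG : Function.Injective G) (γ : U → K) (c : Fin s → K) :
    Function.extend G (γ ∘ G) (Function.extend G c γ) = γ := by
  classical
  funext u
  by_cases hu : ∃ i, G i = u
  · obtain ⟨i, rfl⟩ := hu
    rw [hG.extend_apply]
    rfl
  · rw [Function.extend_apply' _ _ _ hu, Function.extend_apply' _ _ _ hu]

theorem extend_comp' (G : Fin s → U) (hG : Function.Injective G) (γ : U → K) (c : Fin s → K) :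
    Function.extend G c γ ∘ G = c := by
  funext i
  exact hG.extend_apply c γ i

/-- exchange the coordinates in the range of `G` -/
noncomputable def swapE (G : Fin s → U) (hG : Function.Injective G) :
    (U → K) × (Fin s → K) ≃ (U → K) × (Fin s → K) where
  toFun p := (Function.extend G p.2 p.1, p.1 ∘ G)
  invFun p := (Function.extend G p.2 p.1, p.1 ∘ G)
  left_inv p := by
    obtain ⟨γ, c⟩ := p
    simp only [extend_extend G hG, extend_comp' G hG]
  right_inv p := by
    obtain ⟨γ, c⟩ := p
    simp only [extend_extend G hG, extend_comp' G hG]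

/-- the coordinates outside the range of `G` can be fixed -/
theorem exists_gamma3 [Fintype U] [DecidableEq U] [Fintype K] [DecidableEq K] [Nonempty K]
    (G : Fin s → U) (hG : Function.Injective G) (A : Finset (U → K)) :
    ∃ γ : U → K, Fintype.card (Fin s → K) * A.card ≤ Fintype.card (U → K) *
      (Finset.univ.filter fun c => Function.extend G c γ ∈ A).card := by
  classical
  by_contra hcon
  push Not at hcon
  have h1 : ∑ γ : U → K, (Finset.univ.filter fun c => Function.extend G c γ ∈ A).card =
      Fintype.card (Fin s → K) * A.card := by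
    calc ∑ γ : U → K, (Finset.univ.filter fun c => Function.extend G c γ ∈ A).card
        = ∑ γ : U → K, ∑ c : Fin s → K, (if Function.extend G c γ ∈ A then 1 else 0) := by
          refine Finset.sum_congr rfl fun γ _ => ?_
          rw [Finset.card_filter]
      _ = ∑ p : (U → K) × (Fin s → K), (if Function.extend G p.2 p.1 ∈ A then 1 else 0) := by
          rw [Fintype.sum_prod_type]
      _ = ∑ p : (U → K) × (Fin s → K), (if (swapE G hG p).1 ∈ A then 1 else 0) := rfl
      _ = ∑ p : (U → K) × (Fin s → K), (if p.1 ∈ A then 1 else 0) :=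
          Equiv.sum_comp (swapE G hG) fun p : (U → K) × (Fin s → K) => if p.1 ∈ A then 1 else 0
      _ = ∑ w : U → K, ∑ _c : Fin s → K, (if w ∈ A then 1 else 0) := by
          rw [Fintype.sum_prod_type]
      _ = Fintype.card (Fin s → K) * A.card := by
          simp only [Finset.sum_const, Finset.card_univ, smul_eq_mul]
          rw [← Finset.mul_sum]
          simp
  have h2 : Fintype.card (U → K) * ∑ γ : U → K,
      (Finset.univ.filter fun c => Function.extend G c γ ∈ A).card <
      Fintype.card (U → K) * (Fintype.card (Fin s → K) * A.card) := by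
    rw [Finset.mul_sum]
    calc ∑ γ : U → K, Fintype.card (U → K) *
          (Finset.univ.filter fun c => Function.extend G c γ ∈ A).card
        < ∑ _γ : U → K, Fintype.card (Fin s → K) * A.card :=
          Finset.sum_lt_sum_of_nonempty Finset.univ_nonempty fun γ _ => hcon γ
      _ = _ := by
          rw [Finset.sum_const, Finset.card_univ, smul_eq_mul]
  rw [h1] at h2
  exact lt_irrefl _ h2

end extend

section ball
variable {K : Type} {s : ℕ} [DecidableEq K]

/-- Hamming distance -/
def hd (c c' : Fin s → K) : ℕ := (Finset.univ.filter fun i => c i ≠ c' i).card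

theorem hd_self (c : Fin s → K) : hd c c = 0 := by
  rw [hd, Finset.card_eq_zero, Finset.filter_eq_empty_iff]
  intro i _ h
  exact h rfl

theorem hd_comm (c c' : Fin s → K) : hd c c' = hd c' c := by
  rw [hd, hd]
  congr 1
  exact Finset.filter_congr fun i _ => ne_comm

/-- balls are small -/
theorem ball3_le [Fintype K] [Nonempty K] {τ : ℕ} (c : Fin s → K) (A : Finset (Fin s → K))
    (hA : ∀ c' ∈ A, hd c c' < τ) : A.card ≤ 2 ^ s * Fintype.card K ^ τ := by
  classical
  have hK : 1 ≤ Fintype.card K := Fintype.card_pos
  set T : Finset (Finset (Fin s)) := Finset.univ.filter fun D => D.card ≤ τ with hT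
  have hcov : A ⊆ T.biUnion fun D => Finset.univ.filter fun c' : Fin s → K =>
      ∀ i, i ∉ D → c' i = c i := by
    intro c' hc'
    rw [Finset.mem_biUnion]
    refine ⟨Finset.univ.filter fun i => c i ≠ c' i, ?_, ?_⟩
    · rw [hT, Finset.mem_filter]
      exact ⟨Finset.mem_univ _, (hA c' hc').le⟩
    · rw [Finset.mem_filter]
      refine ⟨Finset.mem_univ _, fun i hi => ?_⟩
      rw [Finset.mem_filter, not_and, not_not] at hi
      exact (hi (Finset.mem_univ _)).symm
  refine (Finset.card_le_card hcov).trans (Finset.card_biUnion_le.trans ?_)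
  calc ∑ D ∈ T, (Finset.univ.filter fun c' : Fin s → K => ∀ i, i ∉ D → c' i = c i).card
      ≤ ∑ _D ∈ T, Fintype.card K ^ τ := by
        refine Finset.sum_le_sum fun D hD => ?_
        rw [hT, Finset.mem_filter] at hD
        have h1 : (Finset.univ.filter fun c' : Fin s → K => ∀ i, i ∉ D → c' i = c i).card ≤
            Fintype.card (D → K) := by
          rw [← Finset.card_univ]
          refine Finset.card_le_card_of_injOn (fun c' i => c' i.1) (fun _ _ => Finset.mem_coe.2 (Finset.mem_univ _)) ?_
          intro c1 h1 c2 h2 h12
          rw [Finset.mem_coe, Finset.mem_filter] at h1 h2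
          funext i
          by_cases hi : i ∈ D
          · exact congrFun h12 ⟨i, hi⟩
          · rw [h1.2 i hi, h2.2 i hi]
        refine h1.trans ?_
        rw [Fintype.card_fun, Fintype.card_coe]
        exact Nat.pow_le_pow_right hK hD.2
    _ = T.card * Fintype.card K ^ τ := by rw [Finset.sum_const, smul_eq_mul]
    _ ≤ 2 ^ s * Fintype.card K ^ τ := by
        refine Nat.mul_le_mul_right _ ?_
        refine (Finset.card_filter_le _ _).trans ?_
        rw [Finset.card_univ, Fintype.card_finset, Fintype.card_fin]

end ball

end Pool.AD3
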