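import Pool.Agent.Helper10.AD3.Gad
import Pool.Agent.Helper10.AD.Cell

/-!
# One cell, one zero test, words of a code
-/

set_option autoImplicit false
set_option linter.unusedSectionVars false

namespace Pool.AD3

open Finset hiding sup
open MvPolynomial Pool.SDL Pool.Agent.SDet Pool.Agent.Helper76 Pool.Agent.Helper76.CDET Pool.AD
open scoped ENNReal BigOperators

section
variable {F : Type} [Field F] {V Ya : Type} [DecidableEq V] [Fintype V]

open Classical in
/-- the chosen elements of the cell which the polynomial `g` needs on the input `S` -/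
noncomputable def needs {D l B : ℕ} {K Al : Type} [DecidableEq K] [Fintype Al]
    [DecidableEq Al] (wd : K → Fin l → Al)
    (X : ((Fin D × Bool) × Fin l) × (Al × Fin B) → V) (S : Finset V)
    (g : MvPolynomial (V ⊕ Ya) F) (c : Kw D K) :
    Finset (((Fin D × Bool) × Fin l) × (Al × Fin B)) :=
  (Mk B wd c).filter fun x => restr (S \ {X x}) g = 0

theorem mem_needs {D l B : ℕ} {K Al : Type} [DecidableEq K] [Fintype Al]
    [DecidableEq Al] (wd : K → Fin l → Al)
    (X : ((Fin D × Bool) × Fin l) × (Al × Fin B) → V) (S : Finset V)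
    (g : MvPolynomial (V ⊕ Ya) F) (c : Kw D K) (x : ((Fin D × Bool) × Fin l) × (Al × Fin B)) :
    x ∈ needs wd X S g c ↔ x.2.1 = wd (c x.1.1) x.1.2 ∧ restr (S \ {X x}) g = 0 := by
  classical
  unfold needs
  rw [Finset.mem_filter, mem_Mk]

/-- CORE for one cell. For every good choice one of the `N` polynomials needs a lot of elements
in `s` half blocks. -/
theorem core3 {N D l B s : ℕ} {K Al : Type} [Fintype K] [DecidableEq K] [Nonempty K] [Fintype Al]
    [DecidableEq Al] (wd : K → Fin l → Al)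
    (X : ((Fin D × Bool) × Fin l) × (Al × Fin B) → V) (Y : Fin D × K × K → V) (Z : Finset V)
    (hinj : Function.Injective (Sum.elim X Y)) (hX : ∀ x, X x ∉ Z) (hY : ∀ y, Y y ∉ Z)
    (Slo Shi : Kw D K → Finset V)
    (hlow : ∀ c, ∀ e ∈ Slo c, e ∈ Z ∨ (∃ x ∈ Mk B wd c, e = X x) ∨ ∃ y ∈ Yk c, e = Y y)
    (hhigh : ∀ c e, (e ∈ Z ∨ (∃ x, e = X x) ∨ ∃ y ∈ Yk c, e = Y y) → e ∈ Shi c)
    (f : Fin N → MvPolynomial (V ⊕ Ya) F) (G1 : Finset (Kw D K)) {a : ℕ}
    (hwd : ∀ k k', k ≠ k' → (Finset.univ.filter fun p => wd k p = wd k' p).card ≤ a)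
    (δ : ℝ) (hδ : (a : ℝ) ≤ δ * l) (L : ℕ)
    (hsel : ∀ c ∈ G1, ∃ v, ∃ A : Finset (Fin D × Bool), A.card = s ∧
      (∀ u ∈ A, ∀ u' ∈ A, u.1 = u'.1 → u = u') ∧
      (∀ u ∈ A, δ * (l * B) ≤ (((needs wd X (Shi c) (f v) c).filter fun x =>
        x.1.1 = u).card : ℝ)) ∧
      ∃ μ ∈ (f v).support, CDET.sup μ ⊆ Slo c ∧
        ∑ y ∈ Finset.univ.filter (fun y : Fin D × K × K => ∃ u ∈ A, u.1 = y.1),
          μ (Sum.inl (Y y)) ≤ L)
    (τ T0 : ℕ) (hτ : 1 ≤ τ) (hτT : (T0 : ℝ) ≤ τ * (δ * (l * B) - a * B))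
    {l0 : ℕ} {Q R : ℝ≥0∞} (hQ : Q < 1)
    (hR : ∀ v, ∀ D' ≤ L, Pool.RT.SmallK (f v) D' l0 Q R)
    (hT0 : (Fintype.card K : ℝ≥0∞) ^ s * Q ^ T0 ≤ 1 / 2) :
    Q ^ l0 * ((G1.card * Fintype.card K ^ s : ℕ) : ℝ≥0∞) ≤
      2 * R * ((N * (2 * D).choose s * ((L + 1) * (2 ^ s * Fintype.card K ^ τ)) *
        Fintype.card K ^ (2 * D) : ℕ) : ℝ≥0∞) := by
  classical
  rcases G1.eq_empty_or_nonempty with hempty | hne
  · rw [hempty, Finset.card_empty, Nat.zero_mul, Nat.cast_zero, mul_zero]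
    exact zero_le
  have hinjX : Function.Injective X := fun a b hab => by
    have := @hinj (Sum.inl a) (Sum.inl b) hab
    simpa using this
  have hinjY : Function.Injective Y := fun a b hab => by
    have := @hinj (Sum.inr a) (Sum.inr b) hab
    simpa using this
  have hXY : ∀ x y, X x ≠ Y y := fun x y hxy => by
    have := @hinj (Sum.inl x) (Sum.inr y) hxy
    simp at this
  have hN : Nonempty (Fin N) := by
    obtain ⟨c, hc⟩ := hne
    obtain ⟨v, _⟩ := hsel c hc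
    exact ⟨v⟩
  have hsel' : ∀ c : Kw D K, ∃ v, ∃ A : Finset (Fin D × Bool), c ∈ G1 → (A.card = s ∧
      (∀ u ∈ A, ∀ u' ∈ A, u.1 = u'.1 → u = u') ∧
      (∀ u ∈ A, δ * (l * B) ≤ (((needs wd X (Shi c) (f v) c).filter fun x =>
        x.1.1 = u).card : ℝ)) ∧
      ∃ μ ∈ (f v).support, CDET.sup μ ⊆ Slo c ∧
        ∑ y ∈ Finset.univ.filter (fun y : Fin D × K × K => ∃ u ∈ A, u.1 = y.1),
          μ (Sum.inl (Y y)) ≤ L) := by
    intro c
    by_cases hc : c ∈ G1
    · obtain ⟨v, A, h⟩ := hsel c hc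
      exact ⟨v, A, fun _ => h⟩
    · exact ⟨Classical.arbitrary _, ∅, fun h => absurd h hc⟩
  choose vs As hAs using hsel'
  obtain ⟨G2, hG2, ⟨v, A⟩, hvA, hcard2⟩ := exists_value' G1 (fun c => (vs c, As c))
    ((Finset.univ : Finset (Fin N)) ×ˢ Finset.powersetCard s (Finset.univ : Finset (Fin D × Bool)))
    (N * (2 * D).choose s)
    (by
      rw [Finset.card_product, Finset.card_univ, Fintype.card_fin, Finset.card_powersetCard,
        Finset.card_univ, Fintype.card_prod, Fintype.card_fin, Fintype.card_bool, mul_comm D 2])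
    (by
      intro c hc
      rw [Finset.mem_product, Finset.mem_powersetCard]
      exact ⟨Finset.mem_univ _, Finset.subset_univ _, (hAs c hc).1⟩)
  have hG2ne : G2.Nonempty := by
    rw [Finset.nonempty_iff_ne_empty]
    rintro rfl
    rw [Finset.card_empty, Nat.mul_zero, Nat.le_zero, Finset.card_eq_zero] at hcard2
    exact hne.ne_empty hcard2
  have hv : ∀ c ∈ G2, vs c = v := fun c hc => (Prod.mk.inj (hvA c hc)).1
  have hA : ∀ c ∈ G2, As c = A := fun c hc => (Prod.mk.inj (hvA c hc)).2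
  have hgood : ∀ c ∈ G2, (∀ u ∈ A, δ * (l * B) ≤ (((needs wd X (Shi c) (f v) c).filter fun x =>
        x.1.1 = u).card : ℝ)) ∧
      ∃ μ ∈ (f v).support, CDET.sup μ ⊆ Slo c ∧
        ∑ y ∈ Finset.univ.filter (fun y : Fin D × K × K => ∃ u ∈ A, u.1 = y.1),
          μ (Sum.inl (Y y)) ≤ L := by
    intro c hc
    have h3 := (hAs c (hG2 hc)).2.2
    rw [hv c hc, hA c hc] at h3
    exact h3
  obtain ⟨hAc, hAb⟩ : A.card = s ∧ (∀ u ∈ A, ∀ u' ∈ A, u.1 = u'.1 → u = u') := by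
    obtain ⟨c, hc⟩ := hG2ne
    have h3 := hAs c (hG2 hc)
    rw [hA c hc] at h3
    exact ⟨h3.1, h3.2.1⟩
  -- enumerate the half blocks
  obtain ⟨gA, hgA, hgAr⟩ : ∃ gA : Fin s → Fin D × Bool, Function.Injective gA ∧
      ∀ u, u ∈ A ↔ ∃ i, gA i = u := by
    let e := Finset.equivFinOfCardEq hAc
    refine ⟨fun i => (e.symm i).1, ?_, ?_⟩
    · intro i i' h
      exact e.symm.injective (Subtype.ext h)
    · intro u
      constructor
      · intro hu
        exact ⟨e ⟨u, hu⟩, by simp⟩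
      · rintro ⟨i, rfl⟩
        exact (e.symm i).2
  have hgAA : ∀ i, gA i ∈ A := fun i => (hgAr _).2 ⟨i, rfl⟩
  have hgAb : ∀ i i', (gA i).1 = (gA i').1 → i = i' := fun i i' h =>
    hgA (hAb _ (hgAA i) _ (hgAA i') h)
  obtain ⟨γ, hγ⟩ := exists_gamma3 gA hgA G2
  obtain ⟨cc, hcc⟩ : ∃ cc : (Fin s → K) → Kw D K, ∀ c, cc c = Function.extend gA c γ :=
    ⟨_, fun _ => rfl⟩
  have hcc1 : ∀ c i, cc c (gA i) = c i := fun c i => by rw [hcc, hgA.extend_apply]
  have hcc2 : ∀ c u, u ∉ A → cc c u = γ u := fun c u hu => by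
    rw [hcc, Function.extend_apply']
    rwa [← hgAr]
  set G3 : Finset (Fin s → K) := Finset.univ.filter fun c => cc c ∈ G2 with hG3
  have hG3m : ∀ c, c ∈ G3 ↔ cc c ∈ G2 := fun c => by rw [hG3, Finset.mem_filter]; simp
  have hγ' : Fintype.card K ^ s * G2.card ≤ Fintype.card K ^ (2 * D) * G3.card := by
    have h3 : Fintype.card (Fin s → K) = Fintype.card K ^ s := by
      rw [Fintype.card_fun, Fintype.card_fin]
    have h4 : Fintype.card (Fin D × Bool → K) = Fintype.card K ^ (2 * D) := by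
      rw [Fintype.card_fun, Fintype.card_prod, Fintype.card_fin, Fintype.card_bool, mul_comm D 2]
    rw [h3, h4] at hγ
    refine hγ.trans (le_of_eq ?_)
    congr 2
    ext c
    rw [hG3m, Finset.mem_filter, hcc]
    simp
  -- monomials
  have hμ' : ∀ c : Fin s → K, ∃ μ : (V ⊕ Ya) →₀ ℕ, c ∈ G3 → (μ ∈ (f v).support ∧
      CDET.sup μ ⊆ Slo (cc c) ∧
        ∑ y ∈ Finset.univ.filter (fun y : Fin D × K × K => ∃ u ∈ A, u.1 = y.1),
          μ (Sum.inl (Y y)) ≤ L) := by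
    intro c
    by_cases hc : c ∈ G3
    · obtain ⟨μ, h⟩ := (hgood (cc c) ((hG3m c).1 hc)).2
      exact ⟨μ, fun _ => h⟩
    · exact ⟨0, fun h => absurd h hc⟩
  choose μ hμ using hμ'
  -- the local gadget
  obtain ⟨X', hX'⟩ : ∃ X' : (Fin s × Fin l) × (Al × Fin B) → V,
      ∀ x, X' x = X ((gA x.1.1, x.1.2), x.2) := ⟨_, fun _ => rfl⟩
  obtain ⟨yi, hyi⟩ : ∃ yi : Fin s × K → Fin D × K × K, ∀ y, yi y = ((gA y.1).1,
      Function.update γ (gA y.1) y.2 ((gA y.1).1, false),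
      Function.update γ (gA y.1) y.2 ((gA y.1).1, true)) := ⟨_, fun _ => rfl⟩
  obtain ⟨Y', hY'⟩ : ∃ Y' : Fin s × K → V, ∀ y, Y' y = Y (yi y) := ⟨_, fun _ => rfl⟩
  obtain ⟨Z', hZ'⟩ : ∃ Z' : Finset V, ∀ e, e ∈ Z' ↔ (e ∈ Z ∨
      (∃ x, x.1.1 ∉ A ∧ x ∈ Mk B wd γ ∧ e = X x) ∨
      ∃ y, (∀ u ∈ A, u.1 ≠ y.1) ∧ y ∈ Yk γ ∧ e = Y y) :=
    ⟨Finset.univ.filter fun e => e ∈ Z ∨ (∃ x, x.1.1 ∉ A ∧ x ∈ Mk B wd γ ∧ e = X x) ∨
      ∃ y, (∀ u ∈ A, u.1 ≠ y.1) ∧ y ∈ Yk γ ∧ e = Y y, fun e => by simp⟩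
  have hyinj : Function.Injective yi := by
    rintro ⟨i, k⟩ ⟨i', k'⟩ h
    rw [hyi, hyi] at h
    simp only [Prod.mk.injEq] at h
    have h1 := hgAb i i' h.1
    subst h1
    have h2 : k = k' := by
      rcases hb : gA i with ⟨b, e⟩
      rw [hb] at h
      cases e
      · have := h.2.1
        simpa using this
      · have := h.2.2
        simpa using this
    rw [h2]
  have hyic : ∀ c i, yi (i, c i) = ((gA i).1, cc c ((gA i).1, false), cc c ((gA i).1, true)) := by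
    intro c i
    have h1 : ∀ e, Function.update γ (gA i) (c i) ((gA i).1, e) = cc c ((gA i).1, e) := by
      intro e
      by_cases h2 : ((gA i).1, e) = gA i
      · rw [h2, Function.update_self, hcc1]
      · rw [Function.update_of_ne h2, hcc2]
        intro h3
        exact h2 (hAb _ h3 _ (hgAA i) rfl)
    rw [hyi]
    simp only
    rw [h1, h1]
  have hblk : ∀ c y, y ∈ Yk (cc c) → (∀ u ∈ A, u.1 ≠ y.1) → y ∈ Yk γ := by
    intro c y hy hu
    rw [mem_Yk] at hy ⊢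
    obtain ⟨b, rfl⟩ := hy
    refine ⟨b, ?_⟩
    rw [hcc2 c (b, false) fun h => hu _ h rfl, hcc2 c (b, true) fun h => hu _ h rfl]
  have hblk' : ∀ c y, y ∈ Yk γ → (∀ u ∈ A, u.1 ≠ y.1) → y ∈ Yk (cc c) := by
    intro c y hy hu
    rw [mem_Yk] at hy ⊢
    obtain ⟨b, rfl⟩ := hy
    refine ⟨b, ?_⟩
    rw [hcc2 c (b, false) fun h => hu _ h rfl, hcc2 c (b, true) fun h => hu _ h rfl]
  have hblk2 : ∀ c y, y ∈ Yk (cc c) → ¬ (∀ u ∈ A, u.1 ≠ y.1) → ∃ i, y = yi (i, c i) := by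
    intro c y hy hu
    push Not at hu
    obtain ⟨u, hu, hu1⟩ := hu
    obtain ⟨i, rfl⟩ := (hgAr u).1 hu
    rw [mem_Yk] at hy
    obtain ⟨b, rfl⟩ := hy
    simp only at hu1
    exact ⟨i, by rw [hyic, hu1]⟩
  have hlow' : ∀ c e, e ∈ Slo (cc c) →
      e ∈ Z' ∨ (∃ x ∈ ML wd B c, e = X' x) ∨ ∃ i, e = Y' (i, c i) := by
    intro c e he
    rcases hlow _ e he with h | ⟨x, hx, rfl⟩ | ⟨y, hy, rfl⟩
    · exact Or.inl ((hZ' _).2 (Or.inl h))
    · by_cases hxA : x.1.1 ∈ A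
      · obtain ⟨i, hi⟩ := (hgAr _).1 hxA
        refine Or.inr (Or.inl ⟨((i, x.1.2), x.2), ?_, ?_⟩)
        · rw [mem_ML]
          rw [mem_Mk, ← hi, hcc1] at hx
          exact hx
        · rw [hX']
          simp only
          rw [hi]
      · refine Or.inl ((hZ' _).2 (Or.inr (Or.inl ⟨x, hxA, ?_, rfl⟩)))
        rw [mem_Mk] at hx ⊢
        rw [hx, hcc2 c _ hxA]
    · by_cases hu : ∀ u ∈ A, u.1 ≠ y.1
      · exact Or.inl ((hZ' _).2 (Or.inr (Or.inr ⟨y, hu, hblk c y hy hu, rfl⟩)))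
      · obtain ⟨i, rfl⟩ := hblk2 c y hy hu
        exact Or.inr (Or.inr ⟨i, (hY' _).symm⟩)
  have hYX' : ∀ y x, Y' y ≠ X' x := fun y x h => by
    rw [hY', hX'] at h
    exact hXY _ _ h.symm
  have hXZ' : ∀ x, X' x ∉ Z' := by
    intro x hx
    rw [hX', hZ'] at hx
    rcases hx with h | ⟨x', hx1, _, h⟩ | ⟨y, _, _, h⟩
    · exact hX _ h
    · rw [← hinjX h] at hx1
      exact hx1 (hgAA _)
    · exact hXY _ _ h
  have hYZ' : ∀ y, Y' y ∉ Z' := by
    intro y hy
    rw [hY', hZ'] at hy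
    rcases hy with h | ⟨x', _, _, h⟩ | ⟨y', hy1, _, h⟩
    · exact hY _ h
    · exact hXY _ _ h.symm
    · have h3 := hinjY h
      refine hy1 (gA y.1) (hgAA _) ?_
      rw [← h3, hyi]
  have hinjX' : Function.Injective X' := by
    rintro ⟨⟨i, p⟩, z⟩ ⟨⟨i', p'⟩, z'⟩ h
    rw [hX', hX'] at h
    have h1 := hinjX h
    simp only [Prod.mk.injEq] at h1
    rw [hgA h1.1.1, h1.1.2, h1.2]
  have hinjY' : Function.Injective Y' := by
    intro y y' h
    rw [hY', hY'] at h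
    exact hyinj (hinjY h)
  have hYlo : ∀ c y, Y' y ∈ Slo (cc c) → ∃ i, y = (i, c i) := by
    intro c y hy
    rcases hlow' c _ hy with h | ⟨x, _, h⟩ | ⟨i, h⟩
    · exact absurd h (hYZ' y)
    · exact absurd h (hYX' _ _)
    · exact ⟨i, hinjY' h⟩
  have hhigh' : ∀ c e, (e ∈ Z' ∨ (∃ x, e = X' x) ∨ ∃ i, e = Y' (i, c i)) → e ∈ Shi (cc c) := by
    intro c e he
    rcases he with h | ⟨x, rfl⟩ | ⟨i, rfl⟩
    · rcases (hZ' e).1 h with h | ⟨x, _, _, rfl⟩ | ⟨y, hu, hy, rfl⟩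
      · exact hhigh _ _ (Or.inl h)
      · exact hhigh _ _ (Or.inr (Or.inl ⟨x, rfl⟩))
      · exact hhigh _ _ (Or.inr (Or.inr ⟨y, hblk' c y hy hu, rfl⟩))
    · rw [hX']
      exact hhigh _ _ (Or.inr (Or.inl ⟨_, rfl⟩))
    · rw [hY']
      refine hhigh _ _ (Or.inr (Or.inr ⟨_, ?_, rfl⟩))
      rw [mem_Yk]
      exact ⟨(gA i).1, hyic c i⟩
  have hmain := Pool.RT.core_det (C := Fin s → K) (f v) X' Y' Z'
    (by
      intro p p' h
      rcases p with p | p <;> rcases p' with p' | p'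
      · simp only [Sum.elim_inl] at h
        rw [hinjX' h]
      · exact absurd h.symm (hYX' _ _)
      · exact absurd h (hYX' _ _)
      · simp only [Sum.elim_inr] at h
        rw [hinjY' h])
    hXZ' hYZ'
    (fun c => (ML wd B c).filter fun x => restr (Shi (cc c) \ {X' x}) (f v) = 0)
    (fun c => ML wd B c) G3 μ (fun c hc => (hμ c hc).1)
    (by
      intro c hc e he
      rcases hlow' c e ((hμ c hc).2.1 he) with h | h | ⟨i, h⟩
      · exact Or.inl h
      · exact Or.inr (Or.inl h)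
      · exact Or.inr (Or.inr ⟨_, h⟩))
    (by
      intro c hc S hS hall x hx
      by_contra hxS
      have h0 := (Finset.mem_filter.1 hx).2
      refine restr_ne_mono (f v) ?_ hS h0
      intro e he
      rw [Finset.mem_sdiff, Finset.mem_singleton]
      refine ⟨hhigh' c e ?_, fun h => hxS (h ▸ he)⟩
      rcases hall e he with h | h | ⟨y, h, hy⟩
      · exact Or.inl h
      · exact Or.inr (Or.inl h)
      · have h2 : Y' y ∈ CDET.sup (μ c) := by
          rw [CDET.sup, Finset.mem_filter]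
          exact ⟨Finset.mem_univ _, hy⟩
        obtain ⟨i, hi⟩ := hYlo c y ((hμ c hc).2.1 h2)
        exact Or.inr (Or.inr ⟨i, by rw [h, hi]⟩))
    L
    (by
      intro c hc
      refine le_trans ?_ (hμ c hc).2.2
      have h3 : ∑ y, μ c (Sum.inl (Y' y)) =
          ∑ y ∈ Finset.univ.image yi, μ c (Sum.inl (Y y)) := by
        rw [Finset.sum_image fun y _ y' _ h => hyinj h]
        refine Finset.sum_congr rfl fun y _ => ?_
        rw [hY']
      rw [h3]
      refine Finset.sum_le_sum_of_subset ?_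
      intro y hy
      rw [Finset.mem_image] at hy
      obtain ⟨y', _, rfl⟩ := hy
      rw [Finset.mem_filter]
      exact ⟨Finset.mem_univ _, gA y'.1, hgAA _, by rw [hyi]⟩)
    (fun c c' => hd c c' < τ)
    (fun c => by rw [hd_self]; omega)
    (fun c c' h => by rw [hd_comm]; exact h)
    (2 ^ s * Fintype.card K ^ τ) T0
    (fun c _ A' _ hA' => ball3_le c A' hA')
    (by
      intro c _ c' hc' hfar
      push Not at hfar
      refine dist_le (wd := wd) (δ := δ) (a := a) (τ := τ) hwd hδ hτT c c' _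
        (Finset.filter_subset _ _) ?_ hfar
      intro i
      refine ((hgood (cc c') ((hG3m c').1 hc')).1 (gA i) (hgAA i)).trans ?_
      have h3 : ((needs wd X (Shi (cc c')) (f v) (cc c')).filter fun x =>
          x.1.1 = gA i).card ≤
          (((ML wd B c').filter fun x => restr (Shi (cc c') \ {X' x}) (f v) = 0).filter
            fun x => x.1.1 = i).card := by
        refine Finset.card_le_card_of_injOn (fun x => ((i, x.1.2), x.2)) ?_ ?_
        · rintro ⟨⟨u, p⟩, z⟩ hx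
          rw [Finset.mem_coe, Finset.mem_filter, mem_needs] at hx
          simp only at hx
          obtain ⟨⟨hx1, hx2⟩, rfl⟩ := hx
          rw [hcc1] at hx1
          rw [Finset.mem_coe, Finset.mem_filter, Finset.mem_filter, mem_ML, hX']
          exact ⟨⟨hx1, hx2⟩, rfl⟩
        · rintro ⟨⟨u, p⟩, z⟩ hx ⟨⟨u', p'⟩, z'⟩ hx' h
          rw [Finset.mem_coe, Finset.mem_filter] at hx hx'
          simp only at hx hx'
          simp only [Prod.mk.injEq] at h
          rw [hx.2, hx'.2, h.1.2, h.2]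
      exact_mod_cast h3)
    (l0 := l0) (R := R) hQ (hR v)
    (by
      refine le_trans ?_ hT0
      gcongr
      have h3 : G3.card ≤ Fintype.card K ^ s := by
        refine (Finset.card_le_univ _).trans (le_of_eq ?_)
        rw [Fintype.card_fun, Fintype.card_fin]
      exact_mod_cast h3)
  have h4 : G1.card * Fintype.card K ^ s ≤
      N * (2 * D).choose s * Fintype.card K ^ (2 * D) * G3.card := by
    calc G1.card * Fintype.card K ^ s ≤ (N * (2 * D).choose s * G2.card) * Fintype.card K ^ s :=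
          Nat.mul_le_mul_right _ hcard2
      _ = N * (2 * D).choose s * (Fintype.card K ^ s * G2.card) := by ring
      _ ≤ N * (2 * D).choose s * (Fintype.card K ^ (2 * D) * G3.card) :=
          Nat.mul_le_mul_left _ hγ'
      _ = _ := by ring
  calc Q ^ l0 * ((G1.card * Fintype.card K ^ s : ℕ) : ℝ≥0∞)
      ≤ Q ^ l0 * ((N * (2 * D).choose s * Fintype.card K ^ (2 * D) * G3.card : ℕ) : ℝ≥0∞) := by
        gcongr
    _ = ((N * (2 * D).choose s * Fintype.card K ^ (2 * D) : ℕ) : ℝ≥0∞) *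
        (Q ^ l0 * (G3.card : ℝ≥0∞)) := by
        rw [Nat.cast_mul (N * (2 * D).choose s * Fintype.card K ^ (2 * D))]
        ring
    _ ≤ ((N * (2 * D).choose s * Fintype.card K ^ (2 * D) : ℕ) : ℝ≥0∞) *
        (2 * R * ((L + 1) * (2 ^ s * Fintype.card K ^ τ) : ℕ)) := by gcongr
    _ = _ := by
        push_cast
        ring

end

end Pool.AD3
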