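import Pool.Agent.Helper10.AD3.Comb
import Pool.Agent.Helper34.AD.Defs3

/-!
# Alive elements of half blocks, words of a code
-/

set_option autoImplicit false
set_option linter.unusedSectionVars false

namespace Pool.AD3

open Finset Pool.AD

section dist
variable {K Al : Type} [DecidableEq K] [Fintype Al] [DecidableEq Al] {s l B : ℕ}
  (wd : K → Fin l → Al)

/-- alive elements, in the chosen half blocks -/
def ML (B : ℕ) (c : Fin s → K) : Finset ((Fin s × Fin l) × (Al × Fin B)) :=
  Finset.univ.filter fun x => x.2.1 = wd (c x.1.1) x.1.2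

theorem mem_ML (c : Fin s → K) (x : (Fin s × Fin l) × (Al × Fin B)) :
    x ∈ ML wd B c ↔ x.2.1 = wd (c x.1.1) x.1.2 := by
  unfold ML
  simp

variable {wd}

/-- common elements of two choices in a half block -/
theorem card_common {a : ℕ} (c c' : Fin s → K) (i : Fin s)
    (h : (Finset.univ.filter fun p => wd (c i) p = wd (c' i) p).card ≤ a) :
    ((ML wd B c' ∩ ML wd B c).filter fun x => x.1.1 = i).card ≤ a * B := by
  classical
  have h1 : ((ML wd B c' ∩ ML wd B c).filter fun x => x.1.1 = i).card ≤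
      ((Finset.univ.filter fun p => wd (c i) p = wd (c' i) p) ×ˢ
        (Finset.univ : Finset (Fin B))).card := by
    refine Finset.card_le_card_of_injOn (fun x => (x.1.2, x.2.2)) ?_ ?_
    · intro x hx
      rw [Finset.mem_coe, Finset.mem_filter, Finset.mem_inter, mem_ML, mem_ML] at hx
      rw [Finset.mem_coe, Finset.mem_product, Finset.mem_filter]
      refine ⟨⟨Finset.mem_univ _, ?_⟩, Finset.mem_univ _⟩
      simp only
      rw [← hx.2, ← hx.1.2, ← hx.1.1]
    · rintro ⟨⟨x1, x2⟩, ⟨x3, x4⟩⟩ hx ⟨⟨y1, y2⟩, ⟨y3, y4⟩⟩ hy hxy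
      rw [Finset.mem_coe, Finset.mem_filter, Finset.mem_inter, mem_ML, mem_ML] at hx hy
      simp only at hx hy
      simp only [Prod.mk.injEq] at hxy
      obtain ⟨⟨hx1, _⟩, hx2⟩ := hx
      obtain ⟨⟨hy1, _⟩, hy2⟩ := hy
      rw [hx1, hy1, hx2, hy2, hxy.1, hxy.2]
  refine h1.trans ?_
  rw [Finset.card_product, Finset.card_univ, Fintype.card_fin]
  exact Nat.mul_le_mul_right _ h

/-- the distance -/
theorem dist_le {a τ T0 : ℕ} {δ : ℝ} (hwd : ∀ k k', k ≠ k' →
      (Finset.univ.filter fun p => wd k p = wd k' p).card ≤ a)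
    (hδ : (a : ℝ) ≤ δ * l) (hT0 : (T0 : ℝ) ≤ τ * (δ * (l * B) - a * B))
    (c c' : Fin s → K) (M' : Finset ((Fin s × Fin l) × (Al × Fin B)))
    (hM' : M' ⊆ ML wd B c')
    (hheavy : ∀ i, δ * (l * B) ≤ ((M'.filter fun x => x.1.1 = i).card : ℝ))
    (hd' : τ ≤ hd c c') : T0 ≤ (M' \ ML wd B c).card := by
  classical
  have h0 : 0 ≤ δ * (l * B) - a * B := by
    have hB : (0 : ℝ) ≤ B := Nat.cast_nonneg _
    nlinarith
  have h1 : ∀ i, c i ≠ c' i → δ * (l * B) - a * B ≤
      (((M' \ ML wd B c).filter fun x => x.1.1 = i).card : ℝ) := by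
    intro i hi
    have h2 : (M'.filter fun x => x.1.1 = i).card ≤
        ((M' \ ML wd B c).filter fun x => x.1.1 = i).card +
        ((ML wd B c' ∩ ML wd B c).filter fun x => x.1.1 = i).card := by
      rw [← Finset.card_union_of_disjoint]
      · refine Finset.card_le_card ?_
        intro x hx
        rw [Finset.mem_filter] at hx
        rw [Finset.mem_union, Finset.mem_filter, Finset.mem_filter, Finset.mem_sdiff,
          Finset.mem_inter]
        by_cases h : x ∈ ML wd B c
        · exact Or.inr ⟨⟨hM' hx.1, h⟩, hx.2⟩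
        · exact Or.inl ⟨⟨hx.1, h⟩, hx.2⟩
      · rw [Finset.disjoint_left]
        intro x hx hx'
        rw [Finset.mem_filter, Finset.mem_sdiff] at hx
        rw [Finset.mem_filter, Finset.mem_inter] at hx'
        exact hx.1.2 hx'.1.2
    have h3 := card_common (B := B) c c' i (hwd _ _ hi)
    have h4 : ((M'.filter fun x => x.1.1 = i).card : ℝ) ≤
        (((M' \ ML wd B c).filter fun x => x.1.1 = i).card : ℝ) + (a * B : ℕ) := by
      exact_mod_cast h2.trans (Nat.add_le_add_left h3 _)
    have h5 := hheavy i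
    push_cast at h4
    linarith
  have h2 : (M' \ ML wd B c).card = ∑ i, ((M' \ ML wd B c).filter fun x => x.1.1 = i).card :=
    Finset.card_eq_sum_card_fiberwise fun x _ => Finset.mem_coe.2 (Finset.mem_univ _)
  have h3 : (τ : ℝ) * (δ * (l * B) - a * B) ≤ ((M' \ ML wd B c).card : ℝ) := by
    rw [h2, Nat.cast_sum]
    calc (τ : ℝ) * (δ * (l * B) - a * B) ≤ hd c c' * (δ * (l * B) - a * B) := by
          refine mul_le_mul_of_nonneg_right ?_ h0
          exact_mod_cast hd'
      _ = ∑ i ∈ Finset.univ.filter (fun i => c i ≠ c' i), (δ * (l * B) - a * B) := by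
          rw [Finset.sum_const, nsmul_eq_mul, hd]
      _ ≤ ∑ i ∈ Finset.univ.filter (fun i => c i ≠ c' i),
          (((M' \ ML wd B c).filter fun x => x.1.1 = i).card : ℝ) := by
          refine Finset.sum_le_sum fun i hi => ?_
          exact h1 i (Finset.mem_filter.1 hi).2
      _ ≤ _ := Finset.sum_le_sum_of_subset_of_nonneg (Finset.filter_subset _ _)
          fun i _ _ => Nat.cast_nonneg _
  exact_mod_cast hT0.trans h3

end dist

end Pool.AD3
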