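import Pool.Agent.Helper10.AD3.Sel

/-!
# The machine for decision trees of zero tests of any depth
-/

set_option autoImplicit false
set_option linter.unusedSectionVars false

namespace Pool.AD3

open Finset hiding sup
open MvPolynomial Pool.SDL Pool.Agent.SDet Pool.Agent.Helper76 Pool.Agent.Helper76.CDET Pool.AD
open Pool.GT
open Pool.RT (Pr Pr_eq)
open scoped ENNReal BigOperators

theorem card_Mk {D l B : ℕ} {K Al : Type} [DecidableEq K] [Fintype Al]
    [DecidableEq Al] (wd : K → Fin l → Al) (c : Kw D K) : (Mk B wd c).card = 2 * D * l * B := by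
  classical
  have h1 : Mk B wd c = (Finset.univ : Finset (((Fin D × Bool) × Fin l) × Fin B)).image
      fun z => (z.1, (wd (c z.1.1) z.1.2, z.2)) := by
    ext x
    rw [mem_Mk, Finset.mem_image]
    constructor
    · intro h
      obtain ⟨u, a, b⟩ := x
      simp only at h
      exact ⟨(u, b), Finset.mem_univ _, by rw [h]⟩
    · rintro ⟨z, _, rfl⟩
      rfl
  rw [h1, Finset.card_image_of_injective, Finset.card_univ]
  · simp only [Fintype.card_prod, Fintype.card_fin, Fintype.card_bool]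
    ring
  · rintro ⟨u, b⟩ ⟨u', b'⟩ h
    simp only [Prod.mk.injEq] at h
    rw [h.1, h.2.2]

section
variable {F : Type} [Field F] {V Ya : Type} [DecidableEq V] [Fintype V]

/-- THE MACHINE: random decision trees of any depth, random gadgets -/
theorem adapt3 {I : Type} [Fintype I] (w : I → ℝ) (hw0 : ∀ i, 0 ≤ w i)
    (hw1 : ∑ i, w i = 1) {N h : ℕ} (t : I → DT N) (hones : ∀ i a, ((t i).ones a).card ≤ h)
    (f : I → Fin N → MvPolynomial (V ⊕ Ya) F) {P : Finset V → Prop}
    {J D l B : ℕ} {K Al : Type} [Fintype K] [DecidableEq K] [Nonempty K] [Fintype Al]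
    [DecidableEq Al] {wd : K → Fin l → Al}
    (hJ : 1 ≤ J) (hD : 1 ≤ D) (hl : 1 ≤ l) (hB : 1 ≤ B)
    (G : I → CodeGadget P J D l B wd) (ε1 ε2 κ : ℝ)
    (hyes : ∀ (c : Kh J D K) (j : ℕ), j ≤ J →
      Pr w (fun i => (t i).eval (ans (f i) ((G i).S c j)) = false) ≤ ε1)
    (hno : ∀ (c : Kh J D K) (j : Fin J), ∀ x ∈ Mk B wd (c j),
      Pr w (fun i => (t i).eval (ans (f i) ((G i).S c (j.1 + 1) \ {(G i).X j x})) = true) ≤ ε2)
    (bad : I → Kh J D K → Fin J → Prop) (hbad : ∀ c j, Pr w (fun i => bad i c j) ≤ κ)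
    (lam Lt : ℕ) (β : ℝ) (hβ0 : 0 < β) (hβ : β < 1)
    (hdeg : ∀ i c j, ¬ bad i c j → ∃ μ : Fin N → (V ⊕ Ya) →₀ ℕ,
      (∀ v ∈ (t i).ones (ans (f i) ((G i).S c j.1)),
        μ v ∈ (f i v).support ∧ CDET.sup (μ v) ⊆ (G i).S c j.1) ∧
      ((∀ v ∈ (t i).ones (ans (f i) ((G i).S c j.1)), ∀ b,
        ∑ y ∈ Finset.univ.filter (fun y : Fin D × K × K => y.1 = b),
          μ v (Sum.inl ((G i).Y j y)) ≤ lam) ∨
      (0 < Lt ∧ ∑ v ∈ (t i).ones (ans (f i) ((G i).S c j.1)),
        ∑ y, μ v (Sum.inl ((G i).Y j y)) ≤ Lt ∧ 8 * (Lt : ℝ) ≤ (1 - β) * (lam * D))))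
    {a s τ T0 : ℕ} (hwd : ∀ k k', k ≠ k' →
      (Finset.univ.filter fun p => wd k p = wd k' p).card ≤ a)
    (δ : ℝ) (hδa : (a : ℝ) ≤ δ * l) (hδ : 4 * h * δ ≤ 1 - β)
    (hs : 8 * h * (s : ℝ) ≤ (1 - β) * D)
    (hτ : 1 ≤ τ) (hτT : (T0 : ℝ) ≤ τ * (δ * (l * B) - a * B))
    {l0 : ℕ} {Q R : ℝ≥0∞} (hQ : Q < 1)
    (hR : ∀ i v, ∀ D' ≤ lam * s, Pool.RT.SmallK (f i v) D' l0 Q R)
    (hT0 : (Fintype.card K : ℝ≥0∞) ^ s * Q ^ T0 ≤ 1 / 2) :
    Q ^ l0 * ENNReal.ofReal ((1 - (ε1 + ε2 / β + N / J + κ)) * (Fintype.card K : ℝ) ^ s) ≤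
      2 * R * ((N * (2 * D).choose s * ((lam * s + 1) * (2 ^ s * Fintype.card K ^ τ)) : ℕ)) := by
  classical
  have hJ0 : (0 : ℝ) < J := by exact_mod_cast hJ
  have hl0 : (0 : ℝ) < l := by exact_mod_cast hl
  have hEpos : (0 : ℝ) < ((2 * D * l * B : ℕ) : ℝ) := by
    have : 0 < 2 * D * l * B := by positivity
    exact_mod_cast this
  have hδ0 : 0 ≤ δ := by
    by_contra h1
    push Not at h1
    have h2 := mul_neg_of_neg_of_pos h1 hl0
    have h3 : (0 : ℝ) ≤ a := Nat.cast_nonneg _
    linarith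
  obtain ⟨bz, hbz⟩ : ∃ bz : I → Fin J → Kh J D K → Finset (((Fin D × Bool) × Fin l) × (Al × Fin B)),
      ∀ i j c x, x ∈ bz i j c ↔ x ∈ Mk B wd (c j) ∧
        (t i).eval (ans (f i) ((G i).S c (j.1 + 1) \ {(G i).X j x})) = true :=
    ⟨fun i j c => (Mk B wd (c j)).filter fun x =>
      (t i).eval (ans (f i) ((G i).S c (j.1 + 1) \ {(G i).X j x})) = true,
      fun i j c x => by rw [Finset.mem_filter]⟩
  have hsumPr : ∀ (p q : I → Prop), Pr w (fun i => p i ∨ q i) ≤ Pr w p + Pr w q := by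
    intro p q
    rw [Pr_eq, Pr_eq, Pr_eq, ← Finset.sum_add_distrib]
    refine Finset.sum_le_sum fun i _ => ?_
    rw [← mul_add]
    refine mul_le_mul_of_nonneg_left ?_ (hw0 i)
    by_cases e1 : p i <;> by_cases e2 : q i <;> simp [e1, e2]
  -- a good index and a good cell
  obtain ⟨i, j, γ, G1, hG1, hGood⟩ := Pool.ADP.exists_cell (C := Kw D K) (J := J) hJ w hw0 hw1
    (fun i j (c : Kh J D K) => (t i).eval (ans (f i) ((G i).S c (j.1 + 1))) = false ∨
      (ans (f i) ((G i).S c j.1) ≠ ans (f i) ((G i).S c (j.1 + 1)) ∨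
      (β * (2 * D * l * B : ℕ) < ((bz i j c).card : ℝ) ∨ bad i c j)))
    (ε1 + ε2 / β + N / J + κ) (by
    intro c
    have hb1 : ∀ j : Fin J, Pr w (fun i => (t i).eval (ans (f i) ((G i).S c (j.1 + 1))) = false) ≤
        ε1 := fun j => hyes c (j.1 + 1) (by have := j.2; omega)
    have hb3 : ∀ j : Fin J, Pr w (fun i => β * (2 * D * l * B : ℕ) < ((bz i j c).card : ℝ)) ≤
        ε2 / β := by
      intro j
      rw [Pr_eq]
      have hE : ∑ i, w i * ((bz i j c).card : ℝ) ≤ ε2 * (2 * D * l * B : ℕ) := by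
        have h4 : ∀ i, w i * ((bz i j c).card : ℝ) =
            ∑ x ∈ Mk B wd (c j), w i * (if (t i).eval (ans (f i)
              ((G i).S c (j.1 + 1) \ {(G i).X j x})) = true then (1:ℝ) else 0) := by
          intro i
          rw [← Finset.mul_sum]
          congr 1
          have h5 : bz i j c = (Mk B wd (c j)).filter fun x => (t i).eval (ans (f i)
              ((G i).S c (j.1 + 1) \ {(G i).X j x})) = true := by
            ext x
            rw [hbz, Finset.mem_filter]
          rw [h5, Finset.card_filter, Nat.cast_sum]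
          refine Finset.sum_congr rfl fun z _ => ?_
          split_ifs <;> simp
        rw [Finset.sum_congr rfl fun i _ => h4 i, Finset.sum_comm]
        calc ∑ x ∈ Mk B wd (c j), ∑ i, w i * (if (t i).eval (ans (f i)
              ((G i).S c (j.1 + 1) \ {(G i).X j x})) = true then (1:ℝ) else 0)
            ≤ ∑ _x ∈ Mk B wd (c j), ε2 := by
              refine Finset.sum_le_sum fun x hx => ?_
              have h5 := hno c j x hx
              rwa [Pr_eq] at h5
          _ = ε2 * (2 * D * l * B : ℕ) := by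
              rw [Finset.sum_const, card_Mk, nsmul_eq_mul, mul_comm]
      have h6 := Pool.RT.markov w hw0 (fun i => (bz i j c).card)
        (ε2 * (2 * D * l * B : ℕ)) (β * (2 * D * l * B : ℕ)) (mul_pos hβ0 hEpos) hE
      rwa [mul_div_mul_right _ _ hEpos.ne'] at h6
    have hb2 : ∑ j : Fin J, Pr w (fun i => ans (f i) ((G i).S c j.1) ≠
        ans (f i) ((G i).S c (j.1 + 1))) ≤ N := by
      simp_rw [Pr_eq]
      rw [Finset.sum_comm]
      have h7 : ∀ i, ∑ j : Fin J, w i * (if ans (f i) ((G i).S c j.1) ≠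
          ans (f i) ((G i).S c (j.1 + 1)) then (1:ℝ) else 0) ≤ w i * N := by
        intro i
        rw [← Finset.mul_sum]
        refine mul_le_mul_of_nonneg_left ?_ (hw0 i)
        have h8 : ∑ j : Fin J, (if ans (f i) ((G i).S c j.1) ≠
            ans (f i) ((G i).S c (j.1 + 1)) then (1:ℝ) else 0) =
            ((Finset.univ.filter fun j : Fin J => ans (f i) ((G i).S c j.1) ≠
              ans (f i) ((G i).S c (j.1 + 1))).card : ℝ) := by
          rw [Finset.card_filter, Nat.cast_sum]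
          refine Finset.sum_congr rfl fun z _ => ?_
          split_ifs <;> simp
        rw [h8]
        have h9 := chain_changes (f i) J (fun k => (G i).S c k) fun k => (G i).mono c k
        have h10 : (Finset.univ.filter fun j : Fin J => ans (f i) ((G i).S c j.1) ≠
              ans (f i) ((G i).S c (j.1 + 1))).card ≤
            ((Finset.range J).filter fun k => ans (f i) ((G i).S c k) ≠
              ans (f i) ((G i).S c (k + 1))).card := by
          refine Finset.card_le_card_of_injOn (fun j => j.1) ?_ fun a _ b _ h => Fin.ext h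
          intro j hj
          rw [Finset.mem_coe, Finset.mem_filter] at hj
          rw [Finset.mem_coe, Finset.mem_filter]
          exact ⟨Finset.mem_range.2 j.2, hj.2⟩
        exact_mod_cast h10.trans h9
      refine (Finset.sum_le_sum fun i _ => h7 i).trans (le_of_eq ?_)
      rw [← Finset.sum_mul, hw1, one_mul]
    calc ∑ j : Fin J, MAJ.Pr w (fun i => (t i).eval (ans (f i) ((G i).S c (j.1 + 1))) = false ∨
          (ans (f i) ((G i).S c j.1) ≠ ans (f i) ((G i).S c (j.1 + 1)) ∨
          (β * (2 * D * l * B : ℕ) < ((bz i j c).card : ℝ) ∨ bad i c j)))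
        ≤ ∑ j : Fin J, (ε1 + Pr w (fun i => ans (f i) ((G i).S c j.1) ≠
          ans (f i) ((G i).S c (j.1 + 1))) + ε2 / β + κ) := by
          refine Finset.sum_le_sum fun j _ => ?_
          refine (hsumPr _ _).trans ?_
          have h11 := hb1 j
          have h12 := hsumPr (fun i => ans (f i) ((G i).S c j.1) ≠
            ans (f i) ((G i).S c (j.1 + 1))) (fun i =>
            (β * (2 * D * l * B : ℕ) < ((bz i j c).card : ℝ) ∨ bad i c j))
          have h13 := hsumPr (fun i => β * (2 * D * l * B : ℕ) < ((bz i j c).card : ℝ))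
            (fun i => bad i c j)
          have h14 := hb3 j
          have h15 := hbad c j
          linarith
      _ = J * (ε1 + ε2 / β + κ) + ∑ j : Fin J, Pr w (fun i => ans (f i) ((G i).S c j.1) ≠
          ans (f i) ((G i).S c (j.1 + 1))) := by
          rw [Finset.sum_add_distrib, Finset.sum_add_distrib, Finset.sum_add_distrib]
          simp only [Finset.sum_const, Finset.card_univ, Fintype.card_fin, nsmul_eq_mul]
          ring
      _ ≤ J * (ε1 + ε2 / β + κ) + N := by linarith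
      _ = (ε1 + ε2 / β + N / J + κ) * J := by
          field_simp
          ring)
  -- everything outside the cell is fixed
  obtain ⟨cc, hcc⟩ : ∃ cc : Kw D K → Kh J D K, ∀ c', cc c' = Function.update γ j c' :=
    ⟨_, fun _ => rfl⟩
  have hccj : ∀ c', cc c' j = c' := fun c' => by rw [hcc, Function.update_self]
  have hccZ : ∀ c', (G i).Z j (cc c') = (G i).Z j γ := fun c' =>
    (G i).Zc j _ _ fun k hk => by rw [hcc, Function.update_of_ne hk]
  have hGood' : ∀ c' ∈ G1, (t i).eval (ans (f i) ((G i).S (cc c') (j.1 + 1))) = true ∧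
      ans (f i) ((G i).S (cc c') j.1) = ans (f i) ((G i).S (cc c') (j.1 + 1)) ∧
      ((bz i j (cc c')).card : ℝ) ≤ β * (2 * D * l * B : ℕ) ∧ ¬ bad i (cc c') j := by
    intro c' hc'
    have h3 := hGood c' hc'
    rw [← hcc] at h3
    push Not at h3
    refine ⟨?_, h3.2.1, h3.2.2.1, h3.2.2.2⟩
    have h4 := h3.1
    cases h5 : (t i).eval (ans (f i) ((G i).S (cc c') (j.1 + 1)))
    · exact absurd h5 h4
    · rfl
  have hmain := core3 (s := s) (a := a) wd ((G i).X j) ((G i).Y j) ((G i).Z j γ) ((G i).inj j)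
    ((G i).XZ j γ) ((G i).YZ j γ) (fun c => (G i).S (cc c) j.1)
    (fun c => (G i).S (cc c) (j.1 + 1))
    (by
      intro c e he
      have h3 := (G i).low (cc c) j e he
      rwa [hccZ, hccj] at h3)
    (by
      intro c e he
      refine (G i).high (cc c) j e ?_
      rwa [hccZ, hccj])
    (f i) G1 hwd δ hδa (lam * s)
    (by
      intro c hc
      obtain ⟨h3, h4, h5, h6⟩ := hGood' c hc
      obtain ⟨μ, hμ1, hμ2⟩ := hdeg i (cc c) j h6
      refine select wd ((G i).X j) ((G i).Y j) ((G i).S (cc c) j.1)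
        ((G i).S (cc c) (j.1 + 1)) c (f i) ((t i).ones (ans (f i) ((G i).S (cc c) j.1)))
        (hones _ _) hD hl hB β hβ ?_ μ hμ1 hμ2 δ hδ0 hδ hs
      refine ⟨Mk B wd c \ bz i j (cc c), ?_, ?_⟩
      · have h7 : ((2 * D * l * B : ℕ) : ℝ) ≤ (bz i j (cc c)).card +
            (Mk B wd c \ bz i j (cc c)).card := by
          rw [← card_Mk wd c (B := B)]
          have := Finset.card_le_card_sdiff_add_card (s := Mk B wd c) (t := bz i j (cc c))
          rw [add_comm] at this
          exact_mod_cast this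
        have h8 : ((2 * D * l * B : ℕ) : ℝ) = 2 * D * l * B := by push_cast; ring
        rw [h8] at h5 h7
        linarith
      · intro x hx
        rw [Finset.mem_sdiff, hbz, hccj] at hx
        obtain ⟨hx1, hx2⟩ := hx
        refine ⟨hx1, ?_⟩
        by_contra hcon
        push Not at hcon
        apply hx2
        refine ⟨hx1, ?_⟩
        rw [← h3]
        rw [h4] at hcon
        refine DT.eval_of_ones _ _ (t i) (fun v hv => ans_mono (f i) Finset.sdiff_subset v hv) ?_
        intro v hv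
        rw [ans_true]
        exact hcon v hv)
    τ T0 hτ hτT hQ (hR i) hT0
  have hK0 : (0 : ℝ) < (Fintype.card K : ℝ) := by exact_mod_cast Fintype.card_pos
  have hcardW : (Fintype.card (Kw D K) : ℝ) = (Fintype.card K : ℝ) ^ (2 * D) := by
    rw [Fintype.card_fun, Fintype.card_prod, Fintype.card_bool, Fintype.card_fin, mul_comm D 2]
    push_cast
    rfl
  have hne0 : ((Fintype.card K : ℝ≥0∞)) ^ (2 * D) ≠ 0 := by
    refine pow_ne_zero _ ?_
    exact_mod_cast Fintype.card_ne_zero
  have hnet : ((Fintype.card K : ℝ≥0∞)) ^ (2 * D) ≠ ⊤ := ENNReal.pow_ne_top (ENNReal.natCast_ne_top _)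
  refine (ENNReal.mul_le_mul_iff_left hne0 hnet).1 ?_
  calc Q ^ l0 * ENNReal.ofReal ((1 - (ε1 + ε2 / β + N / J + κ)) * (Fintype.card K : ℝ) ^ s) *
        (Fintype.card K : ℝ≥0∞) ^ (2 * D)
      = Q ^ l0 * ENNReal.ofReal (((1 - (ε1 + ε2 / β + N / J + κ)) *
          (Fintype.card K : ℝ) ^ (2 * D)) * (Fintype.card K : ℝ) ^ s) := by
        have h3 : (Fintype.card K : ℝ≥0∞) ^ (2 * D) =
            ENNReal.ofReal ((Fintype.card K : ℝ) ^ (2 * D)) := by
          rw [ENNReal.ofReal_pow hK0.le, ENNReal.ofReal_natCast]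
        rw [h3, mul_assoc, ← ENNReal.ofReal_mul' (by positivity)]
        congr 2
        ring
    _ ≤ Q ^ l0 * ((G1.card * Fintype.card K ^ s : ℕ) : ℝ≥0∞) := by
        gcongr
        rw [← ENNReal.ofReal_natCast]
        refine ENNReal.ofReal_le_ofReal ?_
        push_cast
        refine mul_le_mul_of_nonneg_right ?_ (by positivity)
        rw [← hcardW]
        exact hG1
    _ ≤ 2 * R * ((N * (2 * D).choose s * ((lam * s + 1) * (2 ^ s * Fintype.card K ^ τ)) *
        Fintype.card K ^ (2 * D) : ℕ) : ℝ≥0∞) := hmain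
    _ = _ := by
        rw [Nat.cast_mul (N * (2 * D).choose s * ((lam * s + 1) * (2 ^ s * Fintype.card K ^ τ)))
          (Fintype.card K ^ (2 * D))]
        push_cast
        ring

end

end Pool.AD3
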