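import Pool.Agent.Helper10.AD3.Core

/-!
# The choice of one zero test and of its heavy half blocks
-/

set_option autoImplicit false
set_option linter.unusedSectionVars false

namespace Pool.AD3

open Finset hiding sup
open MvPolynomial Pool.SDL Pool.Agent.SDet Pool.Agent.Helper76 Pool.Agent.Helper76.CDET Pool.AD
open scoped BigOperators

/-- heavy half blocks in different blocks, outside a few bad blocks -/
theorem exists_heavy2 {D s : ℕ} {E : Type} [DecidableEq E] (need : Finset E)
    (un : E → Fin D × Bool) (n : ℕ) (hn : 0 < n)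
    (hcard : ∀ u, (need.filter fun z => un z = u).card ≤ n) (η δ : ℝ) (hδ0 : 0 ≤ δ)
    (hneed : η * (2 * D * n) ≤ need.card) (hδ : 2 * δ ≤ η) (Bd : Finset (Fin D))
    (hBd : 4 * (Bd.card : ℝ) ≤ η * D) (hs : 4 * (s : ℝ) ≤ η * D) :
    ∃ A : Finset (Fin D × Bool), A.card = s ∧
      (∀ u ∈ A, δ * n ≤ ((need.filter fun z => un z = u).card : ℝ)) ∧
      (∀ u ∈ A, ∀ u' ∈ A, u.1 = u'.1 → u = u') ∧ ∀ u ∈ A, u.1 ∉ Bd := by
  classical
  have hn0 : (0 : ℝ) < n := by exact_mod_cast hn
  set Hv : Finset (Fin D × Bool) := Finset.univ.filter fun u =>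
    δ * n ≤ ((need.filter fun z => un z = u).card : ℝ) with hHv
  -- the number of heavy half blocks
  have h1 : (need.card : ℝ) = ∑ u : Fin D × Bool, ((need.filter fun z => un z = u).card : ℝ) := by
    have := Finset.card_eq_sum_card_fiberwise (s := need) (t := Finset.univ) (f := un)
      (fun z _ => Finset.mem_coe.2 (Finset.mem_univ _))
    rw [this]
    push_cast
    rfl
  have h2 : (need.card : ℝ) ≤ Hv.card * n + 2 * D * (δ * n) := by
    rw [h1]
    calc ∑ u : Fin D × Bool, ((need.filter fun z => un z = u).card : ℝ)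
        ≤ ∑ u : Fin D × Bool, ((if u ∈ Hv then (n : ℝ) else 0) + δ * n) := by
          refine Finset.sum_le_sum fun u _ => ?_
          by_cases hu : u ∈ Hv
          · rw [if_pos hu]
            have h3 : ((need.filter fun z => un z = u).card : ℝ) ≤ n := by exact_mod_cast hcard u
            have h4 : 0 ≤ δ * n := by positivity
            linarith
          · rw [if_neg hu]
            rw [hHv, Finset.mem_filter, not_and, not_le] at hu
            have := hu (Finset.mem_univ _)
            linarith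
      _ = Hv.card * n + 2 * D * (δ * n) := by
          rw [Finset.sum_add_distrib, Finset.sum_ite_mem, Finset.univ_inter]
          simp only [Finset.sum_const, Finset.card_univ, Fintype.card_prod, Fintype.card_fin,
            Fintype.card_bool, nsmul_eq_mul]
          push_cast
          ring
  have hD0 : (0 : ℝ) ≤ D := Nat.cast_nonneg _
  have h3 : η * D ≤ Hv.card := by
    have h4 : η * D * n ≤ Hv.card * n := by
      have h5 : 2 * D * (δ * n) ≤ D * η * n := by
        calc 2 * D * (δ * n) = (D * n) * (2 * δ) := by ring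
          _ ≤ (D * n) * η := mul_le_mul_of_nonneg_left hδ (by positivity)
          _ = D * η * n := by ring
      linarith
    exact le_of_mul_le_mul_right h4 hn0
  -- different blocks
  set Bk : Finset (Fin D) := Hv.image Prod.fst with hBk
  have h5 : Hv.card ≤ 2 * Bk.card := by
    have : Hv ⊆ Bk ×ˢ (Finset.univ : Finset Bool) := by
      intro u hu
      rw [Finset.mem_product]
      exact ⟨Finset.mem_image_of_mem _ hu, Finset.mem_univ _⟩
    have h6 := Finset.card_le_card this
    rw [Finset.card_product, Finset.card_univ, Fintype.card_bool] at h6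
    omega
  have h6 : s ≤ (Bk \ Bd).card := by
    have h7 : (Hv.card : ℝ) ≤ 2 * Bk.card := by exact_mod_cast h5
    have h8 : (Bk.card : ℝ) ≤ Bd.card + (Bk \ Bd).card := by
      have := Finset.card_le_card_sdiff_add_card (s := Bk) (t := Bd)
      rw [add_comm] at this
      exact_mod_cast this
    have h9 : (s : ℝ) ≤ (Bk \ Bd).card := by linarith
    exact_mod_cast h9
  obtain ⟨Bs, hBs, hBsc⟩ := Finset.exists_subset_card_eq h6
  have hBs1 : ∀ b ∈ Bs, b ∈ Bk := fun b hb => (Finset.mem_sdiff.1 (hBs hb)).1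
  have hBs2 : ∀ b ∈ Bs, b ∉ Bd := fun b hb => (Finset.mem_sdiff.1 (hBs hb)).2
  have h7 : ∀ b ∈ Bk, ∃ u ∈ Hv, u.1 = b := by
    intro b hb
    rw [hBk, Finset.mem_image] at hb
    exact hb
  choose! g hg hg1 using h7
  refine ⟨Bs.image g, ?_, ?_, ?_, ?_⟩
  · rw [Finset.card_image_of_injOn, hBsc]
    intro b hb b' hb' h
    rw [← hg1 b (hBs1 b hb), ← hg1 b' (hBs1 b' hb'), h]
  · intro u hu
    obtain ⟨b, hb, rfl⟩ := Finset.mem_image.1 hu
    have := hg b (hBs1 b hb)
    rw [hHv, Finset.mem_filter] at this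
    exact this.2
  · intro u hu u' hu' h
    obtain ⟨b, hb, rfl⟩ := Finset.mem_image.1 hu
    obtain ⟨b', hb', rfl⟩ := Finset.mem_image.1 hu'
    rw [hg1 b (hBs1 b hb), hg1 b' (hBs1 b' hb')] at h
    rw [h]
  · intro u hu
    obtain ⟨b, hb, rfl⟩ := Finset.mem_image.1 hu
    rw [hg1 b (hBs1 b hb)]
    exact hBs2 b hb

section
variable {F : Type} [Field F] {V Ya : Type} [DecidableEq V] [Fintype V]

theorem needs_half {D l B : ℕ} {K Al : Type} [DecidableEq K] [Fintype Al]
    [DecidableEq Al] (wd : K → Fin l → Al)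
    (X : ((Fin D × Bool) × Fin l) × (Al × Fin B) → V) (S : Finset V)
    (g : MvPolynomial (V ⊕ Ya) F) (c : Kw D K) (u : Fin D × Bool) :
    ((needs wd X S g c).filter fun x => x.1.1 = u).card ≤ l * B := by
  classical
  have h1 : ((needs wd X S g c).filter fun x => x.1.1 = u).card ≤
      ((Finset.univ : Finset (Fin l)) ×ˢ (Finset.univ : Finset (Fin B))).card := by
    refine Finset.card_le_card_of_injOn (fun x => (x.1.2, x.2.2)) ?_ ?_
    · intro x _
      exact Finset.mem_coe.2 (Finset.mem_product.2 ⟨Finset.mem_univ _, Finset.mem_univ _⟩)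
    · rintro ⟨⟨u1, p1⟩, ⟨a1, b1⟩⟩ h1 ⟨⟨u2, p2⟩, ⟨a2, b2⟩⟩ h2 h
      rw [Finset.mem_coe, Finset.mem_filter, mem_needs] at h1 h2
      simp only at h1 h2
      simp only [Prod.mk.injEq] at h
      obtain ⟨⟨h3, _⟩, h4⟩ := h1
      obtain ⟨⟨h5, _⟩, h6⟩ := h2
      rw [h3, h5, h4, h6, h.1, h.2]
  refine h1.trans ?_
  rw [Finset.card_product, Finset.card_univ, Finset.card_univ, Fintype.card_fin, Fintype.card_fin]

/-- SELECTION: one test, many heavy half blocks, small degree in their derivative elements -/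
theorem select {N D l B s h lam Lt : ℕ} {K Al : Type} [Fintype K] [DecidableEq K] [Fintype Al]
    [DecidableEq Al] (wd : K → Fin l → Al)
    (X : ((Fin D × Bool) × Fin l) × (Al × Fin B) → V) (Y : Fin D × K × K → V)
    (Slo Shi : Finset V) (c : Kw D K)
    (f : Fin N → MvPolynomial (V ⊕ Ya) F) (U : Finset (Fin N)) (hU : U.card ≤ h)
    (hD : 1 ≤ D) (hl : 1 ≤ l) (hB : 1 ≤ B) (β : ℝ) (hβ : β < 1)
    (hneed : ∃ W : Finset (((Fin D × Bool) × Fin l) × (Al × Fin B)),
      (1 - β) * (2 * D * l * B) ≤ (W.card : ℝ) ∧ ∀ x ∈ W, x ∈ Mk B wd c ∧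
        ∃ v ∈ U, restr (Shi \ {X x}) (f v) = 0)
    (μ : Fin N → (V ⊕ Ya) →₀ ℕ) (hμ : ∀ v ∈ U, μ v ∈ (f v).support ∧ CDET.sup (μ v) ⊆ Slo)
    (hdeg : (∀ v ∈ U, ∀ b, ∑ y ∈ Finset.univ.filter (fun y : Fin D × K × K => y.1 = b),
        μ v (Sum.inl (Y y)) ≤ lam) ∨
      (0 < Lt ∧ ∑ v ∈ U, ∑ y, μ v (Sum.inl (Y y)) ≤ Lt ∧ 8 * (Lt : ℝ) ≤ (1 - β) * (lam * D)))
    (δ : ℝ) (hδ0 : 0 ≤ δ) (hδ : 4 * h * δ ≤ 1 - β) (hs : 8 * h * (s : ℝ) ≤ (1 - β) * D) :
    ∃ v, ∃ A : Finset (Fin D × Bool), A.card = s ∧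
      (∀ u ∈ A, ∀ u' ∈ A, u.1 = u'.1 → u = u') ∧
      (∀ u ∈ A, δ * (l * B) ≤ (((needs wd X Shi (f v) c).filter fun x =>
        x.1.1 = u).card : ℝ)) ∧
      ∃ μ' ∈ (f v).support, CDET.sup μ' ⊆ Slo ∧
        ∑ y ∈ Finset.univ.filter (fun y : Fin D × K × K => ∃ u ∈ A, u.1 = y.1),
          μ' (Sum.inl (Y y)) ≤ lam * s := by
  classical
  have hD0 : (0 : ℝ) < D := by exact_mod_cast hD
  have hl0 : (0 : ℝ) < l := by exact_mod_cast hl
  have hB0 : (0 : ℝ) < B := by exact_mod_cast hB
  have hβ' : 0 < 1 - β := by linarith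
  obtain ⟨W, hW, hW'⟩ := hneed
  -- the sum over the tests
  have hsum : (1 - β) * (2 * D * l * B) ≤ ∑ v ∈ U, ((needs wd X Shi (f v) c).card : ℝ) := by
    refine hW.trans ?_
    have h1 : W ⊆ U.biUnion fun v => needs wd X Shi (f v) c := by
      intro x hx
      obtain ⟨h2, v, hv, h3⟩ := hW' x hx
      rw [Finset.mem_biUnion]
      exact ⟨v, hv, (mem_needs _ _ _ _ _ _).2 ⟨(mem_Mk _ _ _).1 h2, h3⟩⟩
    have h2 := (Finset.card_le_card h1).trans Finset.card_biUnion_le
    exact_mod_cast h2
  have hUne : U.Nonempty := by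
    rw [Finset.nonempty_iff_ne_empty]
    rintro rfl
    rw [Finset.sum_empty] at hsum
    have : 0 < (1 - β) * (2 * D * l * B) := by positivity
    linarith
  have hh : 1 ≤ h := hUne.card_pos.trans_le hU
  have hh0 : (0 : ℝ) < h := by exact_mod_cast hh
  have hUh : (U.card : ℝ) ≤ h := by exact_mod_cast hU
  -- the test
  obtain ⟨v, hv, η, Bd, h1, h2, h3, h4, h5⟩ : ∃ v ∈ U, ∃ (η : ℝ) (Bd : Finset (Fin D)),
      η * (2 * D * (l * B : ℕ)) ≤ (needs wd X Shi (f v) c).card ∧ 2 * δ ≤ η ∧
      4 * (Bd.card : ℝ) ≤ η * D ∧ 4 * (s : ℝ) ≤ η * D ∧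
      ∀ b, b ∉ Bd → ∑ y ∈ Finset.univ.filter (fun y : Fin D × K × K => y.1 = b),
        μ v (Sum.inl (Y y)) ≤ lam := by
    rcases hdeg with hdeg | ⟨hLt, hdeg, hlam⟩
    · -- individual degrees
      obtain ⟨v, hv, h6⟩ : ∃ v ∈ U, (1 - β) / h * (2 * D * l * B) ≤
          ((needs wd X Shi (f v) c).card : ℝ) := by
        by_contra hcon
        push Not at hcon
        have h7 : ∑ v ∈ U, ((needs wd X Shi (f v) c).card : ℝ) <
            ∑ _v ∈ U, (1 - β) / h * (2 * D * l * B) :=
          Finset.sum_lt_sum_of_nonempty hUne hcon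
        rw [Finset.sum_const, nsmul_eq_mul] at h7
        have h8 : (U.card : ℝ) * ((1 - β) / h * (2 * D * l * B)) ≤
            h * ((1 - β) / h * (2 * D * l * B)) :=
          mul_le_mul_of_nonneg_right hUh (by positivity)
        have h9 : h * ((1 - β) / h * (2 * D * l * B)) = (1 - β) * (2 * D * l * B) := by
          field_simp
        linarith
      refine ⟨v, hv, (1 - β) / h, ∅, ?_, ?_, ?_, ?_, fun b _ => hdeg v hv b⟩
      · push_cast
        calc (1 - β) / h * (2 * D * (l * B)) = (1 - β) / h * (2 * D * l * B) := by ring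
          _ ≤ _ := h6
      · rw [le_div_iff₀ hh0]
        nlinarith
      · rw [Finset.card_empty]
        have : 0 ≤ (1 - β) / h * D := by positivity
        simpa using this
      · rw [div_mul_eq_mul_div, le_div_iff₀ hh0]
        have : 0 ≤ h * (s : ℝ) := by positivity
        nlinarith
    · -- averaged degrees
      have hLt0 : (0 : ℝ) < Lt := by exact_mod_cast hLt
      obtain ⟨dv, hdv⟩ : ∃ dv : Fin N → ℕ, ∀ v, dv v = ∑ y, μ v (Sum.inl (Y y)) :=
        ⟨_, fun _ => rfl⟩
      have hdv' : ∑ v ∈ U, (dv v : ℝ) ≤ Lt := by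
        have : ∑ v ∈ U, dv v ≤ Lt := by
          refine le_trans (le_of_eq ?_) hdeg
          exact Finset.sum_congr rfl fun v _ => hdv v
        exact_mod_cast this
      set M : ℝ := (1 - β) * (D * l * B) with hM
      have hM0 : 0 < M := by positivity
      obtain ⟨v, hv, h6⟩ : ∃ v ∈ U, M / h + M / Lt * dv v ≤
          ((needs wd X Shi (f v) c).card : ℝ) := by
        by_contra hcon
        push Not at hcon
        have h7 : ∑ v ∈ U, ((needs wd X Shi (f v) c).card : ℝ) <
            ∑ v ∈ U, (M / h + M / Lt * dv v) :=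
          Finset.sum_lt_sum_of_nonempty hUne hcon
        rw [Finset.sum_add_distrib, Finset.sum_const, nsmul_eq_mul, ← Finset.mul_sum] at h7
        have h8 : (U.card : ℝ) * (M / h) ≤ h * (M / h) :=
          mul_le_mul_of_nonneg_right hUh (by positivity)
        have h9 : h * (M / h) = M := by field_simp
        have h10 : M / Lt * ∑ v ∈ U, (dv v : ℝ) ≤ M / Lt * Lt :=
          mul_le_mul_of_nonneg_left hdv' (by positivity)
        have h11 : M / Lt * Lt = M := by field_simp
        have h12 : (1 - β) * (2 * D * l * B) = 2 * M := by rw [hM]; ring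
        linarith
      obtain ⟨nv, hnv⟩ : ∃ nv : ℝ, nv = ((needs wd X Shi (f v) c).card : ℝ) := ⟨_, rfl⟩
      rw [← hnv] at h6
      have hlB : (0 : ℝ) < 2 * D * (l * B) := by positivity
      obtain ⟨η, hη⟩ : ∃ η : ℝ, η * (2 * D * (l * B)) = nv := ⟨nv / (2 * D * (l * B)), by
        rw [div_mul_cancel₀ _ hlB.ne']⟩
      have hη' : (1 - β) / 2 * (1 / h + 1 / Lt * dv v) ≤ η := by
        have h7 : (1 - β) / 2 * (1 / h + 1 / Lt * dv v) * (2 * D * (l * B)) ≤
            η * (2 * D * (l * B)) := by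
          rw [hη]
          refine le_trans (le_of_eq ?_) h6
          rw [hM]
          field_simp
        exact le_of_mul_le_mul_right h7 hlB
      have hdv0 : (0 : ℝ) ≤ dv v := Nat.cast_nonneg _
      have h1h : (1 - β) / 2 * (1 / h) ≤ η := by
        have h7 : 0 ≤ (1 - β) / 2 * (1 / Lt * dv v) := by positivity
        linarith
      have h1L : (1 - β) / 2 * (1 / Lt * dv v) ≤ η := by
        have h7 : 0 ≤ (1 - β) / 2 * (1 / (h : ℝ)) := by positivity
        linarith
      obtain ⟨db, hdb⟩ : ∃ db : Fin D → ℕ, ∀ b, db b =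
          ∑ y ∈ Finset.univ.filter (fun y : Fin D × K × K => y.1 = b), μ v (Sum.inl (Y y)) :=
        ⟨_, fun _ => rfl⟩
      have hdbs : ∑ b, db b = dv v := by
        rw [hdv]
        calc ∑ b, db b = ∑ b, ∑ y ∈ Finset.univ.filter (fun y : Fin D × K × K => y.1 = b),
              μ v (Sum.inl (Y y)) := Finset.sum_congr rfl fun b _ => hdb b
          _ = ∑ y, μ v (Sum.inl (Y y)) := Finset.sum_fiberwise _ _ _
      refine ⟨v, hv, η, Finset.univ.filter fun b => lam < db b, ?_, ?_, ?_, ?_, ?_⟩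
      · rw [← hnv, ← hη]
        push_cast
        exact le_rfl
      · refine le_trans ?_ h1h
        rw [mul_one_div, le_div_iff₀ hh0]
        linarith
      · have h7 : (((Finset.univ.filter fun b => lam < db b).card : ℕ) : ℝ) * lam ≤ dv v := by
          have h8 : (Finset.univ.filter fun b => lam < db b).card * lam ≤ dv v := by
            rw [← hdbs]
            calc (Finset.univ.filter fun b => lam < db b).card * lam =
                ∑ _b ∈ Finset.univ.filter (fun b => lam < db b), lam := by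
                  rw [Finset.sum_const, smul_eq_mul]
              _ ≤ ∑ b ∈ Finset.univ.filter (fun b => lam < db b), db b :=
                  Finset.sum_le_sum fun b hb => (Finset.mem_filter.1 hb).2.le
              _ ≤ ∑ b, db b := Finset.sum_le_sum_of_subset (Finset.filter_subset _ _)
          exact_mod_cast h8
        obtain ⟨bd, hbd⟩ : ∃ bd : ℝ, bd = (((Finset.univ.filter fun b => lam < db b).card : ℕ) : ℝ) :=
          ⟨_, rfl⟩
        rw [← hbd] at h7 ⊢
        have hbd0 : 0 ≤ bd := by rw [hbd]; positivity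
        have h8 : (1 - β) / 2 * (1 / Lt * dv v) * D ≤ η * D :=
          mul_le_mul_of_nonneg_right h1L hD0.le
        refine le_trans ?_ h8
        have h9 : (1 - β) / 2 * (1 / Lt * dv v) * D = ((1 - β) * D * dv v) / (2 * Lt) := by
          field_simp
        rw [h9, le_div_iff₀ (by positivity)]
        have h10 : bd * (8 * Lt) ≤ bd * ((1 - β) * (lam * D)) :=
          mul_le_mul_of_nonneg_left hlam hbd0
        have h11 : (1 - β) * D * (bd * lam) ≤ (1 - β) * D * dv v :=
          mul_le_mul_of_nonneg_left h7 (by positivity)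
        nlinarith
      · have h7 : (1 - β) / 2 * (1 / h) * D ≤ η * D := mul_le_mul_of_nonneg_right h1h hD0.le
        refine le_trans ?_ h7
        have h8 : (1 - β) / 2 * (1 / h) * D = ((1 - β) * D) / (2 * h) := by
          field_simp
        rw [h8, le_div_iff₀ (by positivity)]
        linarith
      · intro b hb
        rw [Finset.mem_filter, not_and, not_lt] at hb
        rw [← hdb]
        exact hb (Finset.mem_univ _)
  obtain ⟨A, hA1, hA2, hA3, hA4⟩ := exists_heavy2 (s := s) (needs wd X Shi (f v) c)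
    (fun x => x.1.1) (l * B) (Nat.mul_pos hl hB) (fun u => needs_half _ _ _ _ _ _) η δ hδ0 h1 h2
    Bd h3 h4
  refine ⟨v, A, hA1, hA3, fun u hu => ?_, μ v, (hμ v hv).1, (hμ v hv).2, ?_⟩
  · have h6 := hA2 u hu
    push_cast at h6
    exact h6
  · calc ∑ y ∈ Finset.univ.filter (fun y : Fin D × K × K => ∃ u ∈ A, u.1 = y.1),
          μ v (Sum.inl (Y y))
        ≤ ∑ y ∈ Finset.univ.filter (fun y : Fin D × K × K => ∃ u ∈ A, u.1 = y.1),
          ∑ u ∈ A, (if y.1 = u.1 then μ v (Sum.inl (Y y)) else 0) := by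
          refine Finset.sum_le_sum fun y hy => ?_
          obtain ⟨_, u, hu, hu1⟩ := Finset.mem_filter.1 hy
          refine le_trans (le_of_eq ?_) (Finset.single_le_sum (f := fun u : Fin D × Bool =>
            if y.1 = u.1 then μ v (Sum.inl (Y y)) else 0) (fun _ _ => Nat.zero_le _) hu)
          rw [if_pos hu1.symm]
      _ ≤ ∑ y, ∑ u ∈ A, (if y.1 = u.1 then μ v (Sum.inl (Y y)) else 0) :=
          Finset.sum_le_sum_of_subset (Finset.filter_subset _ _)
      _ = ∑ u ∈ A, ∑ y ∈ Finset.univ.filter (fun y : Fin D × K × K => y.1 = u.1),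
          μ v (Sum.inl (Y y)) := by
          rw [Finset.sum_comm]
          refine Finset.sum_congr rfl fun u _ => ?_
          rw [Finset.sum_filter]
      _ ≤ ∑ _u ∈ A, lam := Finset.sum_le_sum fun u hu => h5 _ (hA4 u hu)
      _ = lam * s := by rw [Finset.sum_const, smul_eq_mul, hA1, mul_comm]

/-- monomials of a product -/
theorem exists_factors {N : ℕ} (f : Fin N → MvPolynomial (V ⊕ Ya) F) (U : Finset (Fin N))
    (ν : (V ⊕ Ya) →₀ ℕ) (hν : ν ∈ (∏ v ∈ U, f v).support) :
    ∃ μ : Fin N → (V ⊕ Ya) →₀ ℕ, (∀ v ∈ U, μ v ∈ (f v).support) ∧ ν = ∑ v ∈ U, μ v := by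
  classical
  induction U using Finset.induction_on generalizing ν with
  | empty =>
    refine ⟨fun _ => 0, fun v hv => absurd hv (Finset.notMem_empty v), ?_⟩
    rw [Finset.prod_empty, MvPolynomial.mem_support_iff, MvPolynomial.coeff_one] at hν
    rw [Finset.sum_empty]
    by_contra h
    exact hν (if_neg fun h' => h h'.symm)
  | insert v U hv ih =>
    rw [Finset.prod_insert hv] at hν
    obtain ⟨a, ha, b, hb, hab⟩ := Finset.mem_add.1 (MvPolynomial.support_mul _ _ hν)
    obtain ⟨μ, h1, h2⟩ := ih b hb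
    refine ⟨fun u => if u = v then a else μ u, ?_, ?_⟩
    · intro u hu
      by_cases huv : u = v
      · subst huv
        simpa using ha
      · simp only [if_neg huv]
        exact h1 u ((Finset.mem_insert.1 hu).resolve_left huv)
    · rw [Finset.sum_insert hv, if_pos rfl, ← hab, h2]
      congr 1
      refine Finset.sum_congr rfl fun u hu => ?_
      rw [if_neg]
      rintro rfl
      exact hv hu

end

end Pool.AD3
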